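import Pool.Agent.TH447.KL.Final

/-!
# A large antichain with few elements incomparable to it contains a nearly balanced pair
-/

set_option autoImplicit false

namespace Pool.Agent.Results.MP_c534e4_co.LocalAntichain

open Pool.Agent.H13R3.WB

theorem result :
    ∀ C ε : ℝ, 0 < ε → ∃ W : ℕ, ∀ (P : Type) [Fintype P] [PartialOrder P] (A : Finset P),
      IsAntichain (· ≤ ·) (A : Set P) → W ≤ A.card →
      ({z : P | ∃ x ∈ A, ¬ z ≤ x ∧ ¬ x ≤ z} \ A : Set P).ncard ≤ C * (A.card : ℝ) →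
      ∃ x ∈ A, ∃ y ∈ A, x ≠ y ∧ 1 / 2 - ε ≤ prob P x y ∧ 1 / 2 - ε ≤ prob P y x :=
  fun C ε hε => Pool.Agent.TH447.KL.local_antichain C ε hε

end Pool.Agent.Results.MP_c534e4_co.LocalAntichain
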