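import Pool.Agent.TH447.KS.SemiFin

/-!
# Balanced pairs in semiorders of large width

Every semiorder of width `w ≥ 2` has a pair with both probabilities at least
`1/2 - (1 + log (2 w)) / (w - 1)`.
-/

set_option autoImplicit false

namespace Pool.Agent.Results.MP_c534e4_co.SemiorderRate

open Pool.Agent.H13R3.WB Pool.Agent.H931R3.Bal Pool.Agent.TH447.KS

theorem result :
    ∀ w : ℕ, 2 ≤ w → ∀ (P : Type) [Fintype P] [PartialOrder P], IsSemiorder P → HasWidth P w →
      1 / 2 - (1 + Real.log (2 * w)) / (w - 1) ≤ balance P :=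
  fun w hw P _ _ h1 h2 => semi_width hw P h1 h2

end Pool.Agent.Results.MP_c534e4_co.SemiorderRate
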